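import Pool.Agent.Run7.h216.AlmostFinal

set_option autoImplicit false

/-!
# MP_e6c83c_co, Q1, partial result

Almost all vertices of the union of two random Hamiltonian cycles can be coloured from any lists of
size three such that adjacent lists share at most two colours.
-/

open Filter Run7.h216

namespace Pool.Agent.Results.MP_e6c83c_co.AlmostAll

/-- There is an absolute constant `K` such that for a uniformly random pair of Hamiltonian cycles on
`n` vertices, with probability tending to one, for every list assignment with lists of size at
least three and every set `C` such that each vertex outside `C` is mild off `C`, one can choose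
colours from all lists so that no edge with both ends outside `C ∪ R` is monochromatic, where `R`
has at most `K n / log n` vertices. -/
theorem result : ∃ K : ℝ, 0 < K ∧ Tendsto
    (fun n : ℕ =>
      (Nat.card {p : Equiv.Perm (Fin n) × Equiv.Perm (Fin n) //
        ∀ L : Fin n → Finset ℕ, (∀ v, 3 ≤ (L v).card) → ∀ C : Set (Fin n),
          (∀ v, v ∉ C → MildOff (unionGraph n p) L C v) →
          ∃ (R : Set (Fin n)) (c : Fin n → ℕ), (R.ncard : ℝ) ≤ K * (n / Real.log n) ∧
            (∀ v, c v ∈ L v) ∧ ∀ u v, (unionGraph n p).Adj u v → u ∉ C → v ∉ C →
              u ∉ R → v ∉ R → c u ≠ c v} : ℝ) /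
        ((Nat.factorial n : ℝ) ^ 2))
    atTop (nhds 1) :=
  main_almost

end Pool.Agent.Results.MP_e6c83c_co.AlmostAll
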