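import Pool.Agent.Run7.h216.Final2

set_option autoImplicit false

/-!
# List assignments with few repeated common pairs, for two random Hamiltonian cycles
-/

namespace Pool.Agent.Results.MP_e6c83c_co.PairSparse

open Run7.h216

/-- There is an absolute constant `ε > 0` such that a.a.s. the union of two random Hamiltonian
cycles is colourable from every assignment of lists of size at least three with the property
`PairSparse ε`. -/
theorem result : ∃ ε : ℝ, 0 < ε ∧ Filter.Tendsto
    (fun n : ℕ =>
      (Nat.card {p : Equiv.Perm (Fin n) × Equiv.Perm (Fin n) //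
        ∀ L : Fin n → Finset ℕ, (∀ v, 3 ≤ (L v).card) → PairSparse ε (unionGraph n p) L →
          ∃ c : Fin n → ℕ, (∀ v, c v ∈ L v) ∧
            ∀ u v, (unionGraph n p).Adj u v → c u ≠ c v} : ℝ) /
        ((Nat.factorial n : ℝ) ^ 2))
    Filter.atTop (nhds 1) :=
  main_pair

end Pool.Agent.Results.MP_e6c83c_co.PairSparse
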